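import Mathlib
import Pool.Agent.Run7.h168.Near.Cons
import Pool.Agent.Run7.h168.Near.Inst

/-!
# Near algebraic relations between `e` (or `π`, or larger families) and an arbitrary number

Let `x = (x_1, …, x_n)` be real numbers with a measure of algebraic independence which is polynomial
in the height for every degree, for instance `x = e`, `x = π`, `x = log q` (`n = 1`), or
`x = (e, E_{l_1}(s_1), …, E_{l_m}(s_m))` with the values
`E_l(s) = ∑_{j ≥ 1} (-1)^(j-1) s^j / (j! j^l)` at positive rational numbers. Let `t` be ANY complex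
number, for instance `t = π` if `x = e`, or one of the numbers `π + e`, `π e`, `π ^ π`, `e ^ e`, ….
Nothing is assumed about `t`, and all the constants are independent of `t` (except that `C` depends
on a bound for `|t|`); `κ` and `K` depend on `x` and `d` only.

(1) At every height `H` the nonzero integer polynomials `R` of total degree at most `d` and with
coefficients at most `H` such that `|R(t, x)| < C⁻¹ H^(-κ)` are multiples of ONE irreducible
polynomial `F` of degree at most `d` with coefficients at most `K H`, which contains the variable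
`t`, and `|F(t, x)|^d ≤ |R(t, x)|`. As long as there are such `R` with
`|R(t, x)| < C⁻¹ (2 H)^(-κ)` for all `H` of an interval `[H₁, H₂)`, the same `F` works for all
heights of `[H₁, H₂]`, with coefficients at most `K H₁`. (For `H₂ = H₁` this is the statement at one
height.)

(2) So for every `w > κ`: `t`, `x_1, …, x_n` satisfy an exact algebraic relation of degree at most
`d` over the rational numbers if and only if there are near relations of degree at most `d` and
precision `H^(-w)` for all large `H`. If `e` and `π` are algebraically independent then for every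
`d` there are arbitrarily large heights `H` at which `|R(π, e)| > H^(-w)` for all nonzero `R` of
degree at most `d` with coefficients at most `H`; here `w` depends on `d` only.

(3) Gaps: if `ρ > 1` and `w > ρ κ` then the near relations of heights between `H₀` and `X` and of
precision `H^(-w)` are multiples of at most `log log X / log ρ + 1` irreducible polynomials.

Proof. If `|R(t, x)|` is small, then `|F(t, x)|` is small for an irreducible factor `F` of `R`; its
coefficients are bounded by Kronecker's substitution and Mahler's measure, and it contains `t`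
because of the measure for `x`. Two different irreducible polynomials are not both small: their
resultant with respect to `t` is a nonzero polynomial in `x`, for which there is a lower bound.
-/

set_option autoImplicit false

namespace Pool.Agent.Results.MP_a2f59b_nt.NearAlgebraicRelations

open MvPolynomial

/-- a measure of algebraic independence, polynomial in the height for every degree -/
def Measure {n : ℕ} (x : Fin n → ℝ) : Prop :=
  ∀ d : ℕ, ∃ κ c : ℝ, 0 < κ ∧ 0 < c ∧ ∀ P : MvPolynomial (Fin n) ℤ, P ≠ 0 → P.totalDegree ≤ d →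
    ∀ H : ℝ, (∀ s, |((P.coeff s : ℤ) : ℝ)| ≤ H) → c * H ^ (-κ) ≤ |aeval x P|

/-- the number `E_l(s) = ∑_{j ≥ 1} (-1)^(j-1) s^j / (j! j^l)` -/
noncomputable def E (l : ℕ) (s : ℝ) : ℝ :=
  ∑' m : ℕ, -(-s) ^ (m + 1) / ((m + 1).factorial * ((m : ℝ) + 1) ^ l)

/-- `R` is a nonzero polynomial of total degree at most `d` with coefficients at most `H` -/
def Small {n : ℕ} (d : ℕ) (H : ℝ) (R : MvPolynomial (Fin (n + 1)) ℤ) : Prop :=
  R ≠ 0 ∧ R.totalDegree ≤ d ∧ ∀ s, |((R.coeff s : ℤ) : ℝ)| ≤ H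

/-- `|R(t, x_1, …, x_n)|` -/
noncomputable def size {n : ℕ} (t : ℂ) (x : Fin n → ℝ) (R : MvPolynomial (Fin (n + 1)) ℤ) : ℝ :=
  ‖aeval (Fin.cons t (fun i => ((x i : ℝ) : ℂ)) : Fin (n + 1) → ℂ) R‖

theorem measure_one (y : ℝ) (hy : Pool.Agent.TH456.TM.MeasT (y : ℂ)) : Measure ![y] := by
  have h := (Pool.Agent.Run7.h168.Mult.measM_unit y hy).comp (fun _ : Fin 1 => ())
    (fun _ _ _ => Subsingleton.elim _ _)
  have e : (![y] : Fin 1 → ℝ) = (fun _ : Unit => y) ∘ (fun _ : Fin 1 => ()) := by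
    funext i
    rw [Subsingleton.elim i 0]
    rfl
  rw [e]
  exact h

theorem result :
    -- families with a measure
    Measure ![Real.exp 1] ∧ Measure ![Real.pi] ∧
    (∀ q : ℚ, 0 < q → q ≠ 1 → Measure ![Real.log q]) ∧
    (∀ (m : ℕ) (z : Fin m → ℕ × ℚ), Function.Injective z → (∀ i, 1 ≤ (z i).1) →
      (∀ i, 0 < (z i).2) →
      Measure (Fin.cons (Real.exp 1) (fun i => E (z i).1 ((z i).2 : ℚ)) : Fin (m + 1) → ℝ)) ∧
    ∀ (n : ℕ) (x : Fin n → ℝ), Measure x → ∀ d : ℕ, 1 ≤ d → ∃ κ K : ℝ, 0 < κ ∧ 1 ≤ K ∧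
      -- (1) one height, and intervals of heights
      (∀ T : ℝ, 1 ≤ T → ∃ C : ℝ, 1 ≤ C ∧ ∀ t : ℂ, ‖t‖ ≤ T → ∀ H₁ : ℝ, 1 ≤ H₁ →
        ∃ F : MvPolynomial (Fin (n + 1)) ℤ, Irreducible F ∧ 0 < F.degreeOf 0 ∧
          Small d (K * H₁) F ∧ ∀ H₂ : ℝ,
          (∀ H, H₁ ≤ H → H < H₂ → ∃ R, Small d H R ∧ size t x R < C⁻¹ * (2 * H) ^ (-κ)) →
          ∀ H, H₁ ≤ H → H ≤ H₂ → ∀ R, Small d H R →
            C⁻¹ * H ^ (-κ) ≤ size t x R ∨ (F ∣ R ∧ size t x F ^ d ≤ size t x R)) ∧
      -- (2) exact relations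
      (∀ w : ℝ, κ < w → ∀ t : ℂ,
        ((∃ R : MvPolynomial (Fin (n + 1)) ℤ, R ≠ 0 ∧ R.totalDegree ≤ d ∧
            aeval (Fin.cons t (fun i => ((x i : ℝ) : ℂ)) : Fin (n + 1) → ℂ) R = 0) ↔
          ∃ H₀ : ℝ, ∀ H, H₀ ≤ H → ∃ R, Small d H R ∧ size t x R ≤ H ^ (-w))) ∧
      -- (3) gaps
      (∀ T ρ w : ℝ, 1 ≤ T → 1 < ρ → κ * ρ < w → ∃ H₀ : ℝ, 3 ≤ H₀ ∧ ∀ t : ℂ, ‖t‖ ≤ T →
        ∀ X : ℝ, H₀ ≤ X → ∃ 𝓕 : Finset (MvPolynomial (Fin (n + 1)) ℤ),
          (𝓕.card : ℝ) ≤ Real.log (Real.log X) / Real.log ρ + 1 ∧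
          (∀ F ∈ 𝓕, Irreducible F ∧ 0 < F.degreeOf 0) ∧
          ∀ H, H₀ ≤ H → H ≤ X → ∀ R, Small d H R → size t x R ≤ H ^ (-w) → ∃ F ∈ 𝓕, F ∣ R) := by
  refine ⟨?_, ?_, ?_, ?_, ?_⟩
  · exact measure_one _ (Pool.Agent.R473.JC.measT_three _ (Or.inl rfl))
  · exact measure_one _ (Pool.Agent.R473.JC.measT_three _ (Or.inr (Or.inl rfl)))
  · intro q hq hq1
    exact measure_one _ (Pool.Agent.R473.JC.measT_three _ (Or.inr (Or.inr ⟨q, hq, hq1, rfl⟩)))
  · intro m z hz hl hs
    exact Pool.Agent.Run7.h168.Near.measM_e_EE z hz hl hs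
  · intro n x hx d hd
    obtain ⟨κ, K, hκ, hK, h⟩ := Pool.Agent.Run7.h168.Near.intervals x hx d hd
    refine ⟨κ, K, hκ, hK, h, ?_, ?_⟩
    · intro w hw t
      exact Pool.Agent.Run7.h168.Near.criterion x d hd κ K hκ h w hw t
    · intro T ρ w hT hρ hw
      obtain ⟨C, hC, hL⟩ := h T hT
      exact Pool.Agent.Run7.h168.Near.gaps x d κ K hκ T C hC hL ρ w hρ hw

end Pool.Agent.Results.MP_a2f59b_nt.NearAlgebraicRelations
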