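import Mathlib
import Pool.Agent.Run7.h123.LC.Four
import Pool.Agent.Run7.h123.LC.ExpM

set_option autoImplicit false

/-!
# Predicting digits in several bases: the theorem of Lindemann and Weierstrass at finite scales

Let `α_1, …, α_n` be real algebraic numbers which are linearly independent over `ℚ`. We consider
finitely many real numbers `y_k` and finitely many bases. At the scale `(M, K)` a number is
predictable in base `b` if some automaton with at most `K` states, which reads the digits one by one and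
predicts the next one, makes at most `A log (M / (K + 1))` errors among the first `M` digits. For all
scales with `M ≥ R (K + 1)`: over the fields `L_b` generated by the numbers `y_k` which are predictable in
base `b` the defects in the algebraic independence of `e^(α_1), …, e^(α_n)` add up to at most `n` for
multiplicatively independent bases `b_1, …, b_r`.

Hence, for every real `t ≠ 0, ± e^(α_i)`, in all bases outside a group of rank at most `n` at most one
of the `4 n` numbers `t + e^(α_i)`, `t - e^(α_i)`, `t e^(α_i)`, `t / e^(α_i)` is predictable at a given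
scale; for instance in one of three independent bases at most one of the eight numbers
`π ± e`, `π e`, `π / e`, `π ± e^√2`, `π e^√2`, `π / e^√2`.

The starting result `MP_c9a594_an/TwoBasePredictors` concerns one number and two bases, the result
`ThreeOfFourPredictors` (n = 1) the numbers `t + e`, `t - e`, `t e`, `t / e`.
-/

namespace Pool.Agent.Results.MP_a2f59b_nt.PredictorsInManyBases

open Pool.Agent.Run7.h123.LC

/-- the `k`-th digit after the point of `x` in base `b` (`k = 0` is the first one) -/
noncomputable def digit (b : ℕ) (x : ℝ) (k : ℕ) : ℤ := ⌊(b : ℝ) ^ (k + 1) * x⌋ % b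

/-- the number of different blocks of `n` consecutive letters of the word `w` -/
noncomputable def blocks (w : ℕ → ℤ) (n : ℕ) : ℕ :=
  (Set.range fun i : ℕ => fun j : Fin n => w (i + j)).ncard

/-- A word over the alphabet `{0, ..., b - 1}` with at most `C n` blocks of length `n`
for every `n ≥ 1`; for instance the word `0 0 0 ...`, with `C = 1`. -/
structure SimpleWord (b : ℕ) (C : ℝ) (w : ℕ → ℤ) : Prop where
  alphabet : ∀ k, 0 ≤ w k ∧ w k < b
  complexity : ∀ n : ℕ, 1 ≤ n → (blocks w n : ℝ) ≤ C * n

/-- A predictor with `K` states. In the state `s` it announces the letter `out s`; then it reads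
the true letter `d` and moves to the state `step s d`. -/
structure Predictor (K : ℕ) where
  /-- the announced letter -/
  out : Fin K → ℤ
  /-- the next state -/
  step : Fin K → ℤ → Fin K
  /-- the initial state -/
  start : Fin K

/-- the state before reading the letter with index `k` of the word `D` -/
def Predictor.state {K : ℕ} (P : Predictor K) (D : ℕ → ℤ) : ℕ → Fin K
  | 0 => P.start
  | k + 1 => P.step (P.state D k) (D k)

/-- the number of wrong predictions of the predictor among the first `M` letters of `D` -/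
def Predictor.errors {K : ℕ} (P : Predictor K) (D : ℕ → ℤ) (M : ℕ) : ℕ :=
  ((Finset.range M).filter fun k => P.out (P.state D k) ≠ D k).card

/-- Some predictor with at most `K` states which reads the differences between the digits of `y` in
base `b` and the letters of `u` makes at most `A log (M / (K + 1))` wrong predictions among the first
`M` places. -/
def Predictable (A : ℝ) (M K b : ℕ) (u : ℕ → ℤ) (y : ℝ) : Prop :=
  ∃ k ≤ K, ∃ P : Predictor k,
    (P.errors (fun j => digit b y j - u j) M : ℝ) ≤ A * Real.log (M / (K + 1))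

/-- the field generated by those of the numbers `y k` which are predictable in base `b` -/
noncomputable def predField {κ : Type} (A : ℝ) (M K b : ℕ) (u : κ → ℕ → ℤ) (y : κ → ℝ) :
    Subfield ℝ :=
  Subfield.closure {z | ∃ k, Predictable A M K b (u k) (y k) ∧ z = y k}

/-- multiplicatively independent integers -/
def Independent {r : ℕ} (b : Fin r → ℕ) : Prop :=
  ∀ k : Fin r → ℤ, ∏ i, (b i : ℚ) ^ k i = 1 → k = 0

/-- the `4 n` numbers `t + x_j`, `t - x_j`, `t x_j`, `t / x_j` -/
noncomputable def num {n : ℕ} (t : ℝ) (x : Fin n → ℝ) (p : Fin 4 × Fin n) : ℝ :=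
  ![t + x p.2, t - x p.2, t * x p.2, t / x p.2] p.1

/-- For a set `G` of names `(a, j)`, `a = 1, 2, 3, 4`: the number of all `j` which occur in `G`, minus
one if every `j` occurs at most once. -/
noncomputable def weight {n : ℕ} (G : Set (Fin 4 × Fin n)) : ℕ :=
  open Classical in
  if ∃ j a a', a ≠ a' ∧ (a, j) ∈ G ∧ (a', j) ∈ G then {j | ∃ a, (a, j) ∈ G}.ncard
  else {j | ∃ a, (a, j) ∈ G}.ncard - 1

/-! ### comparison with the definitions of the library -/

/-- a predictor of the library -/
def toLib {K : ℕ} (P : Predictor K) : Pool.Agent.Run7.h103.PF.Predictor K := ⟨P.out, P.step, P.start⟩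

lemma state_eq {K : ℕ} (P : Predictor K) (D : ℕ → ℤ) (k : ℕ) :
    (toLib P).state D k = P.state D k := by
  induction k with
  | zero => rfl
  | succ k ih => rw [Predictor.state, Pool.Agent.Run7.h103.PF.Predictor.state, ih]; rfl

lemma errors_eq {K : ℕ} (P : Predictor K) (D : ℕ → ℤ) (M : ℕ) :
    (toLib P).errors D M = P.errors D M := by
  unfold Predictor.errors Pool.Agent.Run7.h103.PF.Predictor.errors
  simp only [state_eq]
  rfl

lemma mem_predictable {κ : Type} {A : ℝ} {M K b : ℕ} {u : κ → ℕ → ℤ} {y : κ → ℝ} {k : κ}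
    (h : Predictable A M K b (u k) (y k)) :
    k ∈ predictable b u y M K (A * Real.log (M / (K + 1))) := by
  intro h1
  obtain ⟨l, hl, P, hP⟩ := h
  have h2 := h1 l hl (toLib P)
  rw [errors_eq] at h2
  exact absurd hP (not_le.2 h2)

lemma predField_le {κ : Type} {A : ℝ} {M K b : ℕ} {u : κ → ℕ → ℤ} {y : κ → ℝ} :
    predField A M K b u y ≤
      Subfield.closure (y '' predictable b u y M K (A * Real.log (M / (K + 1)))) := by
  refine Subfield.closure_mono ?_
  rintro z ⟨k, hk, rfl⟩
  exact ⟨k, mem_predictable hk, rfl⟩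

lemma simple_lib {b : ℕ} {C : ℝ} {w : ℕ → ℤ} (h : SimpleWord b C w) :
    Pool.Agent.Run7.h103.PF.SimpleWord b C w := ⟨h.alphabet, h.complexity⟩

/-- algebraic independence over a smaller field -/
lemma ai_mono {F L : Subfield ℝ} (hFL : F ≤ L) {ι : Type} {x : ι → ℝ}
    (h : AlgebraicIndependent L x) : AlgebraicIndependent F x := by
  let _ : Algebra F L := (Subfield.inclusion hFL).toAlgebra
  have : IsScalarTower F L ℝ := IsScalarTower.of_algebraMap_eq fun _ => rfl
  exact AlgebraicIndependent.restrictScalars (Subfield.inclusion hFL).injective h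

lemma num_eq {n : ℕ} (t : ℝ) (x : Fin n → ℝ) (p : Fin 4 × Fin n) :
    num t x p = four t (x p.2) p.1 := rfl

lemma weight_le {K : Subfield ℝ} {n : ℕ} {x : Fin n → ℝ} (hx0 : ∀ j, x j ≠ 0) {t : ℝ}
    (h0 : t ≠ 0) (h1 : ∀ j, t ≠ x j ∧ t ≠ -x j) {T : Finset (Fin n)}
    (hT : AlgebraicIndependent K fun j : T => x j) (G : Set (Fin 4 × Fin n))
    (hG : ∀ p ∈ G, num t x p ∈ K) : weight G ≤ n - T.card := by
  have h2 := four_count hx0 h0 h1 hT G hG
  unfold weight
  split_ifs with h
  · exact h2.2 h
  · have := h2.1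
    omega

/-- a set of weight zero has at most one element -/
lemma weight_zero {n : ℕ} {G : Set (Fin 4 × Fin n)} (h : weight G = 0) : G.Subsingleton := by
  classical
  unfold weight at h
  split_ifs at h with h1
  · obtain ⟨j, a, a', -, ha, -⟩ := h1
    rw [Set.ncard_eq_zero (Set.toFinite _)] at h
    have : j ∈ {j | ∃ a, (a, j) ∈ G} := ⟨a, ha⟩
    rw [h] at this
    exact this.elim
  · push Not at h1
    rintro ⟨a, j⟩ ha ⟨a', j'⟩ ha'
    have h2 : {j | ∃ a, (a, j) ∈ G}.ncard ≤ 1 := by omega
    have h3 := (Set.ncard_le_one (Set.toFinite _)).1 h2 j ⟨a, ha⟩ j' ⟨a', ha'⟩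
    subst h3
    by_cases haa : a = a'
    · rw [haa]
    · exact absurd ha' (h1 j a a' haa ha)

/-- a maximal independent family of elements of positive weight -/
lemma exists_family {F : Finset ℕ} {n : ℕ} (w : ℕ → ℕ)
    (h : ∀ (r : ℕ) (b : Fin r → ℕ), (∀ i, b i ∈ F) → Independent b → ∑ i, w (b i) ≤ n) :
    ∃ (k : ℕ) (c : Fin k → ℕ), k ≤ n ∧ (∀ i, c i ∈ F) ∧ Independent c ∧
      ∀ b ∈ F, Independent (Fin.snoc c b : Fin (k + 1) → ℕ) → w b = 0 := by
  classical
  set P : ℕ → Prop := fun k => ∃ c : Fin k → ℕ, (∀ i, c i ∈ F) ∧ Independent c ∧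
    ∀ i, 1 ≤ w (c i) with hP
  have hle : ∀ k, P k → k ≤ n := by
    rintro k ⟨c, hc, hi, hb⟩
    refine le_trans ?_ (h k c hc hi)
    calc k = ∑ _i : Fin k, 1 := by simp
      _ ≤ ∑ i, w (c i) := Finset.sum_le_sum fun i _ => hb i
  have h0 : P 0 := ⟨Fin.elim0, fun i => i.elim0, fun k _ => Subsingleton.elim _ _,
    fun i => i.elim0⟩
  obtain ⟨k, hk, hmax⟩ : ∃ k, P k ∧ ∀ l, P l → l ≤ k := by
    refine ⟨Nat.findGreatest P n, Nat.findGreatest_spec (Nat.zero_le n) h0, fun l hl => ?_⟩
    exact Nat.le_findGreatest (hle l hl) hl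
  obtain ⟨c, hc, hi, hb⟩ := hk
  refine ⟨k, c, hle k ⟨c, hc, hi, hb⟩, hc, hi, fun b hb2 hind => ?_⟩
  by_contra hbad
  have h1 : P (k + 1) := by
    refine ⟨Fin.snoc c b, fun i => ?_, hind, fun i => ?_⟩
    · refine Fin.lastCases ?_ (fun j => ?_) i
      · rw [Fin.snoc_last]
        exact hb2
      · rw [Fin.snoc_castSucc]
        exact hc j
    · refine Fin.lastCases ?_ (fun j => ?_) i
      · rw [Fin.snoc_last]
        omega
      · rw [Fin.snoc_castSucc]
        exact hb j
  have := hmax _ h1
  omega

lemma pi_lt : Real.pi < Real.exp √2 := by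
  have h1 : 1 + √2 + √2 ^ 2 / 2 ≤ Real.exp √2 := Real.quadratic_le_exp_of_nonneg (Real.sqrt_nonneg 2)
  have h2 : √2 ^ 2 = 2 := Real.sq_sqrt (by norm_num)
  have h3 : (1.4 : ℝ) ≤ √2 := by
    apply Real.le_sqrt_of_sq_le
    norm_num
  have h4 := Real.pi_lt_d2
  linarith

lemma li_sqrt : LinearIndependent ℚ ![(1 : ℝ), √2] := by
  rw [LinearIndependent.pair_iff]
  intro s t hst
  simp only [Rat.smul_def, mul_one] at hst
  have hirr : Irrational √2 := Nat.Prime.irrational_sqrt Nat.prime_two
  have ht : t = 0 := by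
    by_contra ht
    apply hirr
    refine ⟨-s / t, ?_⟩
    have ht' : (t : ℝ) ≠ 0 := by exact_mod_cast ht
    push_cast
    field_simp
    linarith
  refine ⟨?_, ht⟩
  rw [ht, Rat.cast_zero, zero_mul, add_zero] at hst
  exact_mod_cast hst

/-- Let `α_1, …, α_n` be real algebraic numbers, linearly independent over `ℚ`, `F` a finite set of
bases and `C`, `A` real numbers.

(1) Let `y_k` (`k` in a finite set `κ`) be real numbers and let `u b k` (`b ∈ F`) be words over
`{0, …, b - 1}` with at most `C m` blocks of length `m` for all `m` (for instance `0 0 0 …`). There is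
`R` such that for all `M`, `K` with `R (K + 1) ≤ M` there are sets `T_b ⊆ {1, …, n}` such that for
`b ∈ F` the numbers `e^(α_j)`, `j ∈ T_b`, are algebraically independent over the field generated by
the numbers `y_k` which are predictable in base `b`, and for all multiplicatively independent
`b_1, …, b_r ∈ F` the sum of the numbers `n - |T_(b_i)|` is at most `n`.

(2) Let `t` be real, `t ≠ 0, ± e^(α_j)`. For all `M`, `K` with `R (K + 1) ≤ M`, `R` large, let `G_b` be
the set of those of the `4 n` numbers `t + e^(α_j)`, `t - e^(α_j)`, `t e^(α_j)`, `t / e^(α_j)` which are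
predictable in base `b`. For all multiplicatively independent `b_1, …, b_r ∈ F` the weights of the sets
`G_(b_i)` add up to at most `n`; here the weight is the number of the `j` which occur, minus one if
each of them occurs once.

(3) Hence there are `k ≤ n` multiplicatively independent bases `c_1, …, c_k ∈ F` such that for all
`b ∈ F` for which `c_1, …, c_k, b` are multiplicatively independent at most one of the `4 n` numbers
is predictable in base `b`.

(4) The case `t = π`, `α = (1, √2)`, three independent bases: in at least one of them at most one of the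
numbers `π + e`, `π - e`, `π e`, `π / e`, `π + e^√2`, `π - e^√2`, `π e^√2`, `π / e^√2` is
predictable. -/
theorem result :
    (∀ (n : ℕ) (α : Fin n → ℝ), (∀ i, IsAlgebraic ℚ (α i)) → LinearIndependent ℚ α →
      ∀ F : Finset ℕ, (∀ b ∈ F, 2 ≤ b) → ∀ C A : ℝ,
      (∀ (κ : Type) [Finite κ] (y : κ → ℝ) (u : ℕ → κ → ℕ → ℤ),
        (∀ b ∈ F, ∀ k, SimpleWord b C (u b k)) →
        ∃ R : ℕ, ∀ M K : ℕ, R * (K + 1) ≤ M → ∃ T : ℕ → Finset (Fin n),
          (∀ b ∈ F, AlgebraicIndependent (predField A M K b (u b) y)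
            fun j : T b => Real.exp (α j)) ∧
          ∀ (r : ℕ) (b : Fin r → ℕ), (∀ i, b i ∈ F) → Independent b →
            ∑ i, (n - (T (b i)).card) ≤ n) ∧
      ∀ t : ℝ, t ≠ 0 → (∀ j, t ≠ Real.exp (α j) ∧ t ≠ -Real.exp (α j)) →
        ∀ u : ℕ → Fin 4 × Fin n → ℕ → ℤ, (∀ b ∈ F, ∀ p, SimpleWord b C (u b p)) →
        ∃ R : ℕ, ∀ M K : ℕ, R * (K + 1) ≤ M →
          (∀ (r : ℕ) (b : Fin r → ℕ), (∀ i, b i ∈ F) → Independent b →
            ∑ i, weight {p | Predictable A M K (b i) (u (b i) p)
              (num t (fun j => Real.exp (α j)) p)} ≤ n) ∧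
          ∃ (k : ℕ) (c : Fin k → ℕ), k ≤ n ∧ (∀ i, c i ∈ F) ∧ Independent c ∧
            ∀ b ∈ F, Independent (Fin.snoc c b : Fin (k + 1) → ℕ) →
              {p | Predictable A M K b (u b p)
                (num t (fun j => Real.exp (α j)) p)}.Subsingleton) ∧
    (∀ b : Fin 3 → ℕ, (∀ i, 2 ≤ b i) → Independent b → ∀ A : ℝ,
      ∃ R : ℕ, ∀ M K : ℕ, R * (K + 1) ≤ M → ∃ i, {p : Fin 4 × Fin 2 |
        Predictable A M K (b i) (fun _ => 0)
          (num Real.pi ![Real.exp 1, Real.exp √2] p)}.Subsingleton) := by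
  have main : ∀ (n : ℕ) (α : Fin n → ℝ), (∀ i, IsAlgebraic ℚ (α i)) → LinearIndependent ℚ α →
      ∀ F : Finset ℕ, (∀ b ∈ F, 2 ≤ b) → ∀ C A : ℝ,
      (∀ (κ : Type) [Finite κ] (y : κ → ℝ) (u : ℕ → κ → ℕ → ℤ),
        (∀ b ∈ F, ∀ k, SimpleWord b C (u b k)) →
        ∃ R : ℕ, ∀ M K : ℕ, R * (K + 1) ≤ M → ∃ T : ℕ → Finset (Fin n),
          (∀ b ∈ F, AlgebraicIndependent (predField A M K b (u b) y)
            fun j : T b => Real.exp (α j)) ∧
          ∀ (r : ℕ) (b : Fin r → ℕ), (∀ i, b i ∈ F) → Independent b →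
            ∑ i, (n - (T (b i)).card) ≤ n) := by
    intro n α hα hli F hF C A κ _ y u hu
    obtain ⟨R, hR⟩ := finite_scale (meas_exp α hα hli) y F hF u
      (fun b hb k => simple_lib (hu b hb k)) A
    refine ⟨R, fun M K hMK => ?_⟩
    obtain ⟨T, hT1, hT2⟩ := hR M K hMK
    refine ⟨T, fun b _ => ai_mono predField_le (hT1 b), fun r b hb hi => ?_⟩
    have h1 := hT2 r b hb hi
    have h3 : ∀ i, (T (b i)).card ≤ n := fun i => by
      have := Finset.card_le_univ (T (b i))
      rwa [Fintype.card_fin] at this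
    have h4 : ∑ i, (n - (T (b i)).card) + ∑ i, (T (b i)).card = r * n := by
      rw [← Finset.sum_add_distrib, Finset.sum_congr rfl fun i _ => Nat.sub_add_cancel (h3 i),
        Finset.sum_const, smul_eq_mul, Finset.card_univ, Fintype.card_fin]
    omega
  have part2 : ∀ (n : ℕ) (α : Fin n → ℝ), (∀ i, IsAlgebraic ℚ (α i)) → LinearIndependent ℚ α →
      ∀ F : Finset ℕ, (∀ b ∈ F, 2 ≤ b) → ∀ C A : ℝ,
      ∀ t : ℝ, t ≠ 0 → (∀ j, t ≠ Real.exp (α j) ∧ t ≠ -Real.exp (α j)) →
        ∀ u : ℕ → Fin 4 × Fin n → ℕ → ℤ, (∀ b ∈ F, ∀ p, SimpleWord b C (u b p)) →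
        ∃ R : ℕ, ∀ M K : ℕ, R * (K + 1) ≤ M →
          (∀ (r : ℕ) (b : Fin r → ℕ), (∀ i, b i ∈ F) → Independent b →
            ∑ i, weight {p | Predictable A M K (b i) (u (b i) p)
              (num t (fun j => Real.exp (α j)) p)} ≤ n) := by
    intro n α hα hli F hF C A t ht0 ht u hu
    obtain ⟨R, hR⟩ := main n α hα hli F hF C A _ (num t fun j => Real.exp (α j)) u hu
    refine ⟨R, fun M K hMK r b hb hi => ?_⟩
    obtain ⟨T, hT1, hT2⟩ := hR M K hMK
    refine (Finset.sum_le_sum fun i _ => ?_).trans (hT2 r b hb hi)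
    refine weight_le (fun j => (Real.exp_pos _).ne') ht0 ht (hT1 (b i) (hb i)) _ (fun p hp => ?_)
    exact Subfield.subset_closure ⟨p, hp, rfl⟩
  refine ⟨fun n α hα hli F hF C A => ⟨main n α hα hli F hF C A, fun t ht0 ht u hu => ?_⟩,
    fun b hb hi A => ?_⟩
  · obtain ⟨R, hR⟩ := part2 n α hα hli F hF C A t ht0 ht u hu
    refine ⟨R, fun M K hMK => ⟨hR M K hMK, ?_⟩⟩
    obtain ⟨k, c, hk, hc, hci, h⟩ := exists_family (F := F) (n := n)
      (fun b => weight {p | Predictable A M K b (u b p) (num t (fun j => Real.exp (α j)) p)})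
      (hR M K hMK)
    exact ⟨k, c, hk, hc, hci, fun b hb hbi => weight_zero (h b hb hbi)⟩
  · have hexp : (fun j => Real.exp (![(1 : ℝ), √2] j)) = ![Real.exp 1, Real.exp √2] := by
      funext j
      fin_cases j <;> rfl
    have he1 := Real.exp_pos 1
    have he2 := Real.exp_one_lt_d9
    have hpi := Real.pi_gt_three
    have hp2 := pi_lt
    have hs2 := Real.exp_pos √2
    obtain ⟨R, hR⟩ := part2 2 ![(1 : ℝ), √2] (by
        intro i
        fin_cases i
        · exact isAlgebraic_one
        · refine ⟨Polynomial.X ^ 2 - Polynomial.C 2, Polynomial.X_pow_sub_C_ne_zero two_pos _, ?_⟩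
          have h2 : √2 ^ 2 = 2 := Real.sq_sqrt (by norm_num)
          simp [h2])
      li_sqrt (Finset.univ.image b) (by
        intro d hd
        obtain ⟨i, -, rfl⟩ := Finset.mem_image.1 hd
        exact hb i) 1 A Real.pi Real.pi_ne_zero (by
        intro j
        fin_cases j
        · refine ⟨?_, ?_⟩
          · change Real.pi ≠ Real.exp 1
            intro h
            linarith
          · change Real.pi ≠ -Real.exp 1
            intro h
            linarith
        · refine ⟨?_, ?_⟩
          · change Real.pi ≠ Real.exp √2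
            exact hp2.ne
          · change Real.pi ≠ -Real.exp √2
            intro h
            linarith)
      (fun _ _ _ => 0) (by
        intro d hd p
        obtain ⟨i, -, rfl⟩ := Finset.mem_image.1 hd
        have h1 := Pool.Agent.Run7.h103.PF.simpleWord_zero (hb i)
        exact ⟨h1.alphabet, h1.complexity⟩)
    refine ⟨R, fun M K hMK => ?_⟩
    have h1 := hR M K hMK 3 b (fun i => Finset.mem_image_of_mem _ (Finset.mem_univ i)) hi
    rw [hexp] at h1
    by_contra hcon
    push Not at hcon
    have h2 : ∀ i, 1 ≤ weight {p : Fin 4 × Fin 2 | Predictable A M K (b i) (fun _ => 0)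
        (num Real.pi ![Real.exp 1, Real.exp √2] p)} := by
      intro i
      by_contra h3
      have h4 := weight_zero (Nat.lt_one_iff.1 (not_le.1 h3))
      exact (Set.not_subsingleton_iff.2 (hcon i)) h4
    have h3 : 3 ≤ 2 := by
      refine le_trans ?_ h1
      calc 3 = ∑ _i : Fin 3, 1 := by simp
        _ ≤ _ := Finset.sum_le_sum fun i _ => h2 i
    omega

end Pool.Agent.Results.MP_a2f59b_nt.PredictorsInManyBases
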