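import Pool.Agent.Run7.h432.EP.Sub3

set_option autoImplicit false

/-!
# Integer combinations of arbitrary real numbers and powers of `e` with simple digits

The linear complexity `N_b(y; L)` of the first `L` digits of `y` in base `b` is the least order of a
linear recurrence over `ℚ` satisfied by these digits. A number `y` is *small at the scale `X`* if
`N_b(y; L) log b < κ X - C log b` for some base `b` and some `L` with `L log b ≥ X`. Let `k_1, …, k_n` be
distinct nonzero integers and `ξ_1, …, ξ_m` any real numbers. For an integer vector `v = (a, b)` let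
`v(ξ) = a_1 e ^ k_1 + … + a_n e ^ k_n + b_1 ξ_1 + … + b_m ξ_m`, and let `N = n (m + 1) + m`.

(1) If `N (κ + δ) + κ + δ' < 1`, then at every scale `X` the vectors `v` with entries at most `e ^ (δ X)`
for which some number `(v(ξ) + G) / M` with integers `G` and `1 ≤ M ≤ e ^ (δ' X)` is small span at most an
`m`-dimensional subspace of `ℚ ^ (n + m)`; the constant `C` does not depend on the numbers `ξ_j`.

(2) If `N (κ + δ) + κ < 1`, then the dimension `m` is attained at all large scales (with `G = 0`, `M = 1`)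
if and only if all `ξ_j` are rational combinations of `1, e ^ k_1, …, e ^ k_n`.

(3) If moreover `m ≥ n + 2` and `ξ_j = ξ e ^ (l_j)` with `ξ ≠ 0` and distinct integers `l_j`, then every
interval `[X, Λ X]`, `X` large, contains a scale at which the small vectors span at most an
`(m - 1)`-dimensional subspace. This applies to the four numbers `e, π, π e, π / e`.
-/

namespace Pool.Agent.Results.MP_a2f59b_nt.SubspaceOfForms

open Finset Run7.h432.EP

/-- the `i`-th digit of `x` after the point in base `b` -/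
noncomputable def digit (b : ℕ) (x : ℝ) (i : ℕ) : ℤ := ⌊x * (b : ℝ) ^ i⌋ % (b : ℤ)

/-- The terms `s_1, …, s_L` satisfy the linear recurrence
`s_(i+m) = c_0 s_i + … + c_(m-1) s_(i+m-1)` for `1 ≤ i ≤ L - m`. -/
def Recurrence (s : ℕ → ℤ) (c : ℕ → ℚ) (L m : ℕ) : Prop :=
  ∀ i : ℕ, 1 ≤ i → i + m ≤ L → (s (i + m) : ℚ) = ∑ j ∈ range m, c j * (s (i + j) : ℚ)

/-- the linear complexity of the first `L` digits of `x` in base `b` -/
noncomputable def complexity (b : ℕ) (x : ℝ) (L : ℕ) : ℕ :=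
  sInf {m | ∃ c : ℕ → ℚ, Recurrence (digit b x) c L m}

/-- `N_b(y; L) log b < κ X - C log b` for some base `b` and some `L` with `L log b ≥ X` -/
def Small (κ C X y : ℝ) : Prop :=
  ∃ b L : ℕ, 2 ≤ b ∧ X ≤ L * Real.log b ∧ complexity b y L * Real.log b < κ * X - C * Real.log b

theorem recurrence (b : ℕ) (x : ℝ) (L : ℕ) :
    ∃ c : ℕ → ℚ, Recurrence (digit b x) c L (complexity b x L) := by
  have h : L ∈ {m | ∃ c : ℕ → ℚ, Recurrence (digit b x) c L m} := by
    refine ⟨fun _ => 0, fun i h1 h2 => ?_⟩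
    omega
  exact Nat.sInf_mem ⟨L, h⟩

theorem smallR {κ C X y : ℝ} (h : Small κ C X y) : SmallR κ C X y := by
  obtain ⟨b, L, hb, hX, h⟩ := h
  refine ⟨b, L, complexity b y L, hb, hX, ?_, h⟩
  obtain ⟨c, hc⟩ := recurrence b y L
  refine ⟨c, fun i hi => ?_⟩
  have h := hc (i + 1) (by omega) (by omega)
  have e1 : ∀ j, i + 1 + j = i + j + 1 := fun j => by ring
  simp only [e1] at h
  exact h

/-- small complexities of integers -/
theorem small_int {κ C : ℝ} (hκ : 0 < κ) (hC : 0 ≤ C) (a : ℤ) :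
    ∃ X₀ : ℝ, ∀ X : ℝ, X₀ ≤ X → Small κ C X a := by
  refine ⟨C * Real.log 2 / κ + 1, fun X hX => ?_⟩
  have hl : 0 < Real.log 2 := Real.log_pos (by norm_num)
  obtain ⟨L, hL⟩ := exists_nat_ge (X / Real.log 2)
  refine ⟨2, L, le_rfl, ?_, ?_⟩
  · push_cast
    rwa [div_le_iff₀ hl] at hL
  · have h0 : complexity 2 (a : ℝ) L = 0 := by
      refine Nat.le_zero.1 (Nat.sInf_le ⟨fun _ => 0, fun i hi _ => ?_⟩)
      rw [range_zero, sum_empty]
      have h1 : digit 2 (a : ℝ) (i + 0) = 0 := by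
        unfold digit
        have h2 : (a : ℝ) * ((2 : ℕ) : ℝ) ^ (i + 0) = ((a * 2 ^ i : ℤ) : ℝ) := by
          push_cast
          rw [add_zero]
        rw [h2, Int.floor_intCast]
        obtain ⟨k, rfl⟩ : ∃ k, i = k + 1 := ⟨i - 1, by omega⟩
        push_cast
        rw [pow_succ, ← mul_assoc]
        exact Int.mul_emod_left _ _
      rw [h1]
      simp
    rw [h0]
    push_cast
    rw [zero_mul]
    have h3 : κ * (C * Real.log 2 / κ + 1) ≤ κ * X := mul_le_mul_of_nonneg_left hX hκ.le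
    have h4 : κ * (C * Real.log 2 / κ + 1) = C * Real.log 2 + κ := by
      field_simp
    linarith

/-- the number `a_1 e ^ k_1 + … + a_n e ^ k_n + b_1 ξ_1 + … + b_m ξ_m` -/
noncomputable def combination {n m : ℕ} (k : Fin n → ℤ) (ξ : Fin m → ℝ) (a : Fin n → ℤ)
    (b : Fin m → ℤ) : ℝ :=
  ∑ i, (a i : ℝ) * Real.exp (k i) + ∑ j, (b j : ℝ) * ξ j

/-- the vectors `(a_s, b_s)`, `s = 1, …, N`, are linearly dependent -/
def Dependent {N n m : ℕ} (a : Fin N → Fin n → ℤ) (b : Fin N → Fin m → ℤ) : Prop :=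
  ∃ c : Fin N → ℤ, c ≠ 0 ∧ (∀ i, ∑ s, c s * a s i = 0) ∧ ∀ j, ∑ s, c s * b s j = 0

/-- all entries of the vectors `(a_s, b_s)` are at most `H` in absolute value -/
def HeightLE {N n m : ℕ} (a : Fin N → Fin n → ℤ) (b : Fin N → Fin m → ℤ) (H : ℝ) : Prop :=
  (∀ s i, |(a s i : ℝ)| ≤ H) ∧ ∀ s j, |(b s j : ℝ)| ≤ H

/-- the `m` vectors `(a_s, b_s)` are linearly independent, have entries at most `e ^ (δ X)`, and their
combinations are small at the scale `X` -/
def SmallSystem {n m : ℕ} (k : Fin n → ℤ) (ξ : Fin m → ℝ) (κ δ C X : ℝ) (a : Fin m → Fin n → ℤ)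
    (b : Fin m → Fin m → ℤ) : Prop :=
  ¬ Dependent a b ∧ HeightLE a b (Real.exp (δ * X)) ∧
    ∀ s, Small κ C X (combination k ξ (a s) (b s))

theorem clear {N : ℕ} (r : Fin N → ℚ) : ∃ D : ℤ, D ≠ 0 ∧ ∀ i, ∃ z : ℤ, (D : ℚ) * r i = z := by
  obtain ⟨b, hb⟩ := IsLocalization.exist_integer_multiples (nonZeroDivisors ℤ) univ r
  refine ⟨b, nonZeroDivisors.ne_zero b.2, fun i => ?_⟩
  obtain ⟨z, hz⟩ := hb i (mem_univ i)
  refine ⟨z, ?_⟩
  rw [algebraMap_int_eq, eq_intCast] at hz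
  rw [hz, zsmul_eq_mul]

theorem result (n m : ℕ) (hn : 1 ≤ n) (hm : 1 ≤ m) (k : Fin n → ℤ) (hk : Function.Injective k)
    (hk0 : ∀ i, k i ≠ 0) (κ δ : ℝ) (hκ : 0 < κ) (hδ : 0 < δ) :
    (∀ δ' : ℝ, 0 ≤ δ' → ((n : ℝ) * (m + 1) + m) * (κ + δ) + κ + δ' < 1 → ∃ C : ℝ,
      ∀ (ξ : Fin m → ℝ) (X : ℝ), 0 ≤ X → ∀ (a : Fin (m + 1) → Fin n → ℤ)
        (b : Fin (m + 1) → Fin m → ℤ) (G M : Fin (m + 1) → ℤ),
        HeightLE a b (Real.exp (δ * X)) → (∀ s, 1 ≤ M s ∧ (M s : ℝ) ≤ Real.exp (δ' * X)) →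
        (∀ s, Small κ C X ((combination k ξ (a s) (b s) + G s) / M s)) → Dependent a b) ∧
    (((n : ℝ) * (m + 1) + m) * (κ + δ) + κ < 1 → ∃ C : ℝ,
      (∀ ξ : Fin m → ℝ,
        (∀ j, ∃ (r₀ : ℚ) (r : Fin n → ℚ), ξ j = r₀ + ∑ i, (r i : ℝ) * Real.exp (k i)) ↔
        ∃ X₀ : ℝ, ∀ X : ℝ, X₀ ≤ X → ∃ a b, SmallSystem k ξ κ δ C X a b) ∧
      (n + 2 ≤ m → ∀ l : Fin m → ℤ, Function.Injective l → ∃ Λ : ℝ, ∀ ξ : ℝ, ξ ≠ 0 →
        ∃ X₁ : ℝ, ∀ X : ℝ, X₁ ≤ X → ∃ Y : ℝ, X ≤ Y ∧ Y ≤ Λ * X ∧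
          ∀ a b, ¬ SmallSystem k (fun j => ξ * Real.exp (l j)) κ δ C Y a b)) := by
  set N₀ : ℝ := (n : ℝ) * (m + 1) + m with hN₀
  have hN0 : 0 ≤ N₀ := by positivity
  have hl : 0 < Real.log 2 := Real.log_pos (by norm_num)
  refine ⟨?_, ?_⟩
  · intro δ' hδ' h
    set s := 1 - (N₀ * (κ + δ) + κ + δ') with hs
    have hs0 : 0 < s := by linarith
    set κ' := κ + s / (2 * (N₀ + 1)) with hκ'
    have hκκ' : κ < κ' := by
      have : 0 < s / (2 * (N₀ + 1)) := by positivity
      linarith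
    have h' : N₀ * (κ' + δ) < 1 - κ' - δ' := by
      have e1 : (N₀ + 1) * (s / (2 * (N₀ + 1))) = s / 2 := by field_simp
      have e2 : N₀ * (κ' + δ) + κ' + δ' = N₀ * (κ + δ) + κ + δ' +
          (N₀ + 1) * (s / (2 * (N₀ + 1))) := by
        rw [hκ']
        ring
      linarith
    obtain ⟨C₁, hC₁, h1⟩ := app_of_small hκ hκκ'
    obtain ⟨X₀, hX₀, hdep⟩ := sub_dep hn hm k hk hk0 (α := κ') (β := 1 - κ' - δ') (d := δ)
      (by linarith) hδ.le (by rw [← hN₀]; exact h')
    have hCle : C₁ ≤ C₁ + κ * X₀ / Real.log 2 := by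
      have : 0 ≤ κ * X₀ / Real.log 2 := by positivity
      linarith
    refine ⟨C₁ + κ * X₀ / Real.log 2, ?_⟩
    intro ξ X hX a b G M hab hM hS
    have hXX₀ : X₀ ≤ X := by
      by_contra hlt
      rw [not_le] at hlt
      obtain ⟨B, L, hb, -, h3⟩ := hS 0
      have hbR : (2 : ℝ) ≤ B := by exact_mod_cast hb
      have h4 : Real.log 2 ≤ Real.log B := Real.log_le_log (by norm_num) hbR
      have h5 : κ * X₀ / Real.log 2 * Real.log 2 ≤ κ * X₀ / Real.log 2 * Real.log B :=
        mul_le_mul_of_nonneg_left h4 (by positivity)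
      rw [div_mul_cancel₀ _ hl.ne'] at h5
      have h6 : 0 ≤ C₁ * Real.log B := by positivity
      have h7 : κ * X < κ * X₀ := mul_lt_mul_of_pos_left hlt hκ
      have h8 : (0 : ℝ) ≤ complexity B
          ((combination k ξ (a 0) (b 0) + G 0) / M 0) L * Real.log B := by
        positivity
      rw [add_mul] at h3
      linarith
    refine hdep X hXX₀ ξ a b hab.1 hab.2 (fun s => ?_)
    obtain ⟨q, p, hq, hqX, hqp⟩ := h1 _ _ _ hCle (smallR (hS s))
    refine ⟨q, M s * p - q * G s, hq, hqX, ?_⟩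
    have hM0 : (0 : ℝ) < M s := by
      have := (hM s).1
      exact_mod_cast (by omega : 0 < M s)
    have e1 : (q : ℝ) * form2 k ξ (a s) (b s) - ((M s * p - q * G s : ℤ) : ℝ) =
        M s * (q * ((combination k ξ (a s) (b s) + G s) / M s) - p) := by
      have e0 : combination k ξ (a s) (b s) = form2 k ξ (a s) (b s) := rfl
      rw [e0]
      push_cast
      field_simp
      ring
    rw [e1, abs_mul, abs_of_pos hM0]
    calc (M s : ℝ) * |(q : ℝ) * ((combination k ξ (a s) (b s) + G s) / M s) - p| ≤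
          Real.exp (δ' * X) * Real.exp (κ' * X - X) :=
          mul_le_mul (hM s).2 hqp (abs_nonneg _) (Real.exp_pos _).le
      _ = Real.exp (-((1 - κ' - δ') * X)) := by
          rw [← Real.exp_add]
          congr 1
          ring
  · intro h
    set s := 1 - (N₀ * (κ + δ) + κ) with hs
    have hs0 : 0 < s := by linarith
    set κ' := κ + s / (2 * (N₀ + 1)) with hκ'
    have hκκ' : κ < κ' := by
      have : 0 < s / (2 * (N₀ + 1)) := by positivity
      linarith
    have h' : N₀ * (κ' + δ) + κ' < 1 := by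
      have e1 : (N₀ + 1) * (s / (2 * (N₀ + 1))) = s / 2 := by field_simp
      have e2 : N₀ * (κ' + δ) + κ' = N₀ * (κ + δ) + κ +
          (N₀ + 1) * (s / (2 * (N₀ + 1))) := by
        rw [hκ']
        ring
      linarith
    obtain ⟨C₁, hC₁, h1⟩ := app_of_small hκ hκκ'
    have happ : ∀ (ξ : Fin m → ℝ) (X : ℝ) (a : Fin m → Fin n → ℤ) (b : Fin m → Fin m → ℤ),
        SmallSystem k ξ κ δ C₁ X a b → AV2 k ξ κ' δ X a b :=
      fun ξ X a b hS => ⟨hS.1, hS.2.1.1, hS.2.1.2, fun s => h1 _ _ _ le_rfl (smallR (hS.2.2 s))⟩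
    refine ⟨C₁, fun ξ => ⟨?_, ?_⟩, ?_⟩
    · intro hr
      have hz : ∀ j, ∃ (A : ℤ) (z₀ : ℤ) (z : Fin n → ℤ), A ≠ 0 ∧
          (A : ℝ) * ξ j = z₀ + ∑ i, (z i : ℝ) * Real.exp (k i) := by
        intro j
        obtain ⟨r₀, r, hj⟩ := hr j
        obtain ⟨D, hD, hz⟩ := clear (Fin.cons r₀ r : Fin (n + 1) → ℚ)
        choose z hz using hz
        refine ⟨D, z 0, fun i => z i.succ, hD, ?_⟩
        have h0 := hz 0
        rw [Fin.cons_zero] at h0
        have h0R : (D : ℝ) * r₀ = z 0 := by exact_mod_cast h0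
        have hiR : ∀ i : Fin n, (D : ℝ) * r i = z i.succ := by
          intro i
          have h2 := hz i.succ
          rw [Fin.cons_succ] at h2
          exact_mod_cast h2
        rw [hj, mul_add, h0R, mul_sum]
        congr 1
        refine sum_congr rfl fun i _ => ?_
        rw [← hiR i]
        ring
      choose A z₀ z hA hz using hz
      have hXs : ∀ j, ∃ X₀ : ℝ, ∀ X : ℝ, X₀ ≤ X → Small κ C₁ X (z₀ j : ℤ) := fun j =>
        small_int hκ hC₁ (z₀ j)
      choose Xs hXs using hXs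
      refine ⟨∑ j, |Xs j| + ((∑ j, |(A j : ℝ)|) + ∑ j, ∑ i, |(z j i : ℝ)|) / δ, fun X hX => ?_⟩
      have hAs : 0 ≤ ∑ j, |(A j : ℝ)| := sum_nonneg fun _ _ => abs_nonneg _
      have hzs : 0 ≤ ∑ j, ∑ i, |(z j i : ℝ)| :=
        sum_nonneg fun _ _ => sum_nonneg fun _ _ => abs_nonneg _
      have hXss : 0 ≤ ∑ j, |Xs j| := sum_nonneg fun _ _ => abs_nonneg _
      have hX1 : ((∑ j, |(A j : ℝ)|) + ∑ j, ∑ i, |(z j i : ℝ)|) ≤ δ * X := by
        have : ((∑ j, |(A j : ℝ)|) + ∑ j, ∑ i, |(z j i : ℝ)|) / δ ≤ X := by linarith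
        rw [div_le_iff₀ hδ] at this
        linarith
      have hexp := Real.add_one_le_exp (δ * X)
      refine ⟨fun s i => -z s i, fun s => Pi.single s (A s), ?_, ⟨?_, ?_⟩, ?_⟩
      · rintro ⟨c, hc, -, hcb⟩
        apply hc
        funext j
        have h2 := hcb j
        rw [Finset.sum_eq_single j] at h2
        · simp only [Pi.single_eq_same] at h2
          exact (mul_eq_zero.1 h2).resolve_right (hA j)
        · intro s _ hsj
          simp only [Pi.single_eq_of_ne (Ne.symm hsj), mul_zero]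
        · intro h0
          exact absurd (mem_univ _) h0
      · intro s i
        rw [Int.cast_neg, abs_neg]
        have h2 : |(z s i : ℝ)| ≤ ∑ i, |(z s i : ℝ)| :=
          single_le_sum (f := fun i => |(z s i : ℝ)|) (fun _ _ => abs_nonneg _) (mem_univ i)
        have h3 : ∑ i, |(z s i : ℝ)| ≤ ∑ j, ∑ i, |(z j i : ℝ)| :=
          single_le_sum (f := fun j => ∑ i, |(z j i : ℝ)|)
            (fun _ _ => sum_nonneg fun _ _ => abs_nonneg _) (mem_univ s)
        linarith
      · intro s j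
        have h2 : |(A s : ℝ)| ≤ ∑ j, |(A j : ℝ)| :=
          single_le_sum (f := fun j => |(A j : ℝ)|) (fun _ _ => abs_nonneg _) (mem_univ s)
        by_cases hsj : j = s
        · rw [hsj]
          simp only [Pi.single_eq_same]
          linarith
        · simp only [Pi.single_eq_of_ne hsj, Int.cast_zero, abs_zero]
          exact (Real.exp_pos _).le
      · intro s
        have e1 : combination k ξ (fun i => -z s i) (Pi.single s (A s)) = (z₀ s : ℤ) := by
          unfold combination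
          rw [Finset.sum_eq_single (a := s) (f := fun j => ((Pi.single s (A s) : Fin m → ℤ) j : ℝ) * ξ j)]
          · rw [Pi.single_eq_same, hz s]
            have e2 : ∑ i, ((-z s i : ℤ) : ℝ) * Real.exp (k i) =
                -∑ i, (z s i : ℝ) * Real.exp (k i) := by
              rw [← sum_neg_distrib]
              refine sum_congr rfl fun i _ => ?_
              push_cast
              ring
            rw [e2]
            ring
          · intro j _ hsj
            rw [Pi.single_eq_of_ne hsj, Int.cast_zero, zero_mul]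
          · intro h0
            exact absurd (mem_univ _) h0
        rw [e1]
        apply hXs s X
        have h2 : |Xs s| ≤ ∑ j, |Xs j| :=
          single_le_sum (f := fun j => |Xs j|) (fun _ _ => abs_nonneg _) (mem_univ s)
        have h3 := le_abs_self (Xs s)
        have h4 : 0 ≤ ((∑ j, |(A j : ℝ)|) + ∑ j, ∑ i, |(z j i : ℝ)|) / δ := by positivity
        linarith
    · rintro ⟨X₀, hX₀⟩
      exact span_crit hn hm k hk hk0 (by linarith : 0 ≤ κ') hδ.le h' ξ X₀ (fun X hX => by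
        obtain ⟨a, b, hab⟩ := hX₀ X hX
        exact ⟨a, b, happ _ _ _ _ hab⟩)
    · intro hnm l hl
      obtain ⟨Λ, hΛ⟩ := shifts hn hnm k hk hk0 l hl (by linarith : 0 ≤ κ') hδ.le h'
      refine ⟨Λ, fun ξ hξ => ?_⟩
      obtain ⟨X₁, hX₁⟩ := hΛ ξ hξ
      refine ⟨X₁, fun X hX => ?_⟩
      obtain ⟨Y, hY1, hY2, hY⟩ := hX₁ X hX
      exact ⟨Y, hY1, hY2, fun a b hab => hY a b (happ _ _ _ _ hab)⟩

end Pool.Agent.Results.MP_a2f59b_nt.SubspaceOfForms
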