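import Mathlib
import Pool.Agent.Run7.h103.UN.Four

set_option autoImplicit false

/-!
# Three of the numbers `t + e`, `t - e`, `t e`, `t / e` are unpredictable, uniformly in `t`

Let `z` be `e`, `π` or the logarithm of a rational number and let `F` be a finite set of pairwise
multiplicatively independent bases, for instance `{2, 10}`. At the scale `(M, K)` a real number `w`
has a predictable multiple in base `b` if for some integers `m ≠ 0`, `l`, `q ≥ 1` with `|m|` and `q`
at most `e ^ (A (K + 1))` the number `(m w + l) / q` is equal, up to `e ^ (- ε M) / q`, to a number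
whose first `M` digits in base `b` are predicted by some automaton with at most `K` states with at most
`A log (M / (K + 1))` errors. For all `A` and `ε > 0` there is `R` such that for all
`M ≥ R (K + 1)`, for all bases `b` in `F` with at most one exception, and for EVERY real number `t`
such that `|t|`, `|t - z|`, `|t + z|` are at least `e ^ (- A (K + 1))` and `|t| ≤ e ^ (A (K + 1))`,
three of the four numbers `t + z`, `t - z`, `t z`, `t / z` have no predictable multiple in base `b`.
For `z = e` and `t = π` these are the numbers `π + e`, `π - e`, `π e` and `π / e`.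

The constant `R` and the exceptional base do not depend on `t`; so the statement concerns at the same
time all `t = r π ^ k` with a rational number `r` of height at most `e ^ (A' (K + 1))`, for instance.
Digits may be replaced by the differences between the digits and the letters of words of linear block
complexity.

Proof. Two of the four numbers and `z` satisfy an algebraic relation with small coefficients which
does not vanish identically in `z`. The rest is the uniform measure over the predictable numbers of
`Pool.Agent.Run7.h103.UN`.
-/

namespace Pool.Agent.Results.MP_a2f59b_nt.ThreeOfFourUniform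

open Pool.Agent.Run7.h103.PF Pool.Agent.Run7.h103.UN

/-- Let `z = e`, `π` or the logarithm of a rational number, let `F` be a finite set of pairwise
multiplicatively independent bases, and for `b` in `F` and `i = 0, 1, 2, 3` let `u_{b, i}` be a word of
linear block complexity over `{0, ..., b - 1}`. For all `A` and `ε > 0` there is `R` such that for all
`M`, `K` with `R (K + 1) ≤ M`, for all `b` in `F` with at most one exception, and for every real number
`t` with `|t| ≤ e ^ (A (K + 1))` and `|t|, |t - z|, |t + z| ≥ e ^ (- A (K + 1))`, three of the four
numbers `t + z`, `t - z`, `t z`, `t / z` have no predictable multiple in base `b`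
(`PredictableMultiple`, with the word `u_{b, i}` for the `i`-th number). -/
theorem result :
    ∀ z : ℝ, (z = Real.exp 1 ∨ z = Real.pi ∨ ∃ q : ℚ, 0 < q ∧ q ≠ 1 ∧ z = Real.log q) →
      ∀ F : Finset ℕ, (∀ b ∈ F, 2 ≤ b) → (∀ b ∈ F, ∀ c ∈ F, b ≠ c → Independent b c) →
      ∀ (C : ℝ) (u : ℕ → Fin 4 → ℕ → ℤ), (∀ b ∈ F, ∀ i, SimpleWord b C (u b i)) →
      ∀ A ε : ℝ, 0 < ε →
      ∃ R : ℕ, ∀ M K : ℕ, R * (K + 1) ≤ M → ∃ c : ℕ, ∀ b ∈ F, b ≠ c →
        ∀ t : ℝ, |t| ≤ Real.exp (A * (K + 1)) → Real.exp (-(A * (K + 1))) ≤ |t| →
          Real.exp (-(A * (K + 1))) ≤ |t - z| → Real.exp (-(A * (K + 1))) ≤ |t + z| →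
          ∃ s : Fin 4, ∀ i, i ≠ s → ¬ PredictableMultiple b (u b i) A ε M K (four z t i) := by
  intro z hz F hF2 hF C u hu A ε hε
  obtain ⟨hz1, hz2⟩ := special hz
  exact three_of_four F hF2 hF u hu hz1 hz2 A hε

end Pool.Agent.Results.MP_a2f59b_nt.ThreeOfFourUniform
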